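import Mathlib

/-! Rigidity of sets of integers with the four point property modulo three. -/

set_option autoImplicit false

namespace Pool.Agent.N790.GS

/-- the four point property: among any four integers (in this order) which miss a residue class modulo `3`
two have a difference in `P` -/
def Star (P : Set ℤ) : Prop := ∀ e : Fin 4 → ℤ, (∃ c : ℤ, ∀ a, ¬ (3 : ℤ) ∣ e a - c) →
  ∃ a b : Fin 4, a < b ∧ e b - e a ∈ P

/-- the signed sums of three elements -/
def Sg (P : Set ℤ) : Set ℤ :=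
  {h | ∃ p ∈ P, ∃ q ∈ P, ∃ r ∈ P, h = p + q - r ∨ h = r - p - q}

theorem star4 {P : Set ℤ} (hP : Star P) (x y z w : ℤ)
    (h : ∃ c : ℤ, ¬ (3 : ℤ) ∣ x - c ∧ ¬ (3 : ℤ) ∣ y - c ∧ ¬ (3 : ℤ) ∣ z - c ∧ ¬ (3 : ℤ) ∣ w - c) :
    y - x ∈ P ∨ z - x ∈ P ∨ w - x ∈ P ∨ z - y ∈ P ∨ w - y ∈ P ∨ w - z ∈ P := by
  obtain ⟨c, h1, h2, h3, h4⟩ := h
  obtain ⟨a, b, hab, hm⟩ := hP ![x, y, z, w] ⟨c, by
    intro a
    fin_cases a
    · exact h1
    · exact h2
    · exact h3
    · exact h4⟩
  fin_cases a <;> fin_cases b <;> simp at hab hm <;> tauto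

theorem zero_mem {P : Set ℤ} (hP : Star P) : (0 : ℤ) ∈ P := by
  have := star4 hP 0 0 0 0 ⟨1, by norm_num, by norm_num, by norm_num, by norm_num⟩
  simpa using this

/-- **first rigidity lemma** -/
theorem rigid_one {P : Set ℤ} (hP : Star P) {h : ℤ} (h3 : (3 : ℤ) ∣ h) (hh : h ∉ Sg P) :
    ∀ z : ℤ, z ∈ P ↔ (2 : ℤ) ∣ z := by
  have h0 := zero_mem hP
  have rule : ∀ p ∈ P, ∀ q ∈ P, p + q - h ∉ P ∧ p + q + h ∉ P := by
    intro p hp q hq
    constructor
    · intro hr
      exact hh ⟨p, hp, q, hq, _, hr, Or.inl (by ring)⟩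
    · intro hr
      exact hh ⟨p, hp, q, hq, _, hr, Or.inr (by ring)⟩
  have hhP : h ∉ P := by
    have := (rule 0 h0 0 h0).2
    simpa using this
  have hnP : -h ∉ P := by
    have := (rule 0 h0 0 h0).1
    simpa using this
  have gap : ∀ y : ℤ, y - h ∈ P ∨ y ∈ P ∨ y + h ∈ P := by
    intro y
    have h4 := star4 hP 0 h y (y + h) (by
      obtain ⟨t, ht⟩ := h3
      rcases (show y % 3 = 0 ∨ y % 3 = 1 ∨ y % 3 = 2 by omega) with h5 | h5 | h5
      · exact ⟨1, by omega, by omega, by omega, by omega⟩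
      · exact ⟨2, by omega, by omega, by omega, by omega⟩
      · exact ⟨1, by omega, by omega, by omega, by omega⟩)
    rcases h4 with h4 | h4 | h4 | h4 | h4 | h4
    · exact absurd (by simpa using h4) hhP
    · right; left; simpa using h4
    · right; right; simpa using h4
    · left; exact h4
    · right; left
      have e : y + h - h = y := by ring
      rwa [e] at h4
    · exact absurd (by simpa using h4) hhP
  have add : ∀ p ∈ P, ∀ q ∈ P, p + q ∈ P := by
    intro p hp q hq
    obtain ⟨r1, r2⟩ := rule p hp q hq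
    rcases gap (p + q) with h4 | h4 | h4
    · exact absurd h4 r1
    · exact h4
    · exact absurd h4 r2
  have neg : ∀ p ∈ P, -p ∈ P := by
    intro p hp
    rcases gap (-p) with h4 | h4 | h4
    · exfalso
      have := add _ hp _ h4
      apply hnP
      have e : p + (-p - h) = -h := by ring
      rwa [e] at this
    · exact h4
    · exfalso
      have := add _ hp _ h4
      apply hhP
      have e : p + (-p + h) = h := by ring
      rwa [e] at this
  set G : AddSubgroup ℤ := { carrier := P, zero_mem' := h0, add_mem' := fun {a b} ha hb => add a ha b hb,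
                             neg_mem' := fun {a} ha => neg a ha } with hG
  obtain ⟨d, hd⟩ := Int.subgroup_cyclic G
  have hdP : ∀ z : ℤ, z ∈ P ↔ d ∣ z := by
    intro z
    have e1 : z ∈ P ↔ z ∈ G := Iff.rfl
    rw [e1, hd, ← AddSubgroup.zmultiples_eq_closure, Int.mem_zmultiples_iff]
  have hdh : ¬ d ∣ h := fun hd' => hhP ((hdP h).2 hd')
  have key : ∀ y : ℤ, d ∣ y - h ∨ d ∣ y ∨ d ∣ y + h := by
    intro y
    rcases gap y with h4 | h4 | h4
    · exact Or.inl ((hdP _).1 h4)
    · exact Or.inr (Or.inl ((hdP _).1 h4))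
    · exact Or.inr (Or.inr ((hdP _).1 h4))
  have hd4 : d.natAbs = 2 := by
    have h12 : d ∣ 1 ∨ d ∣ 2 ∨ d ∣ 3 := by
      have h4 := star4 hP 0 0 0 0 ⟨1, by norm_num, by norm_num, by norm_num, by norm_num⟩
      have h5 := star4 hP 0 3 6 9 ⟨1, by norm_num, by norm_num, by norm_num, by norm_num⟩
      -- use the classes of `1, 2`
      have k1 := key 1
      have k2 := key 2
      rcases k1 with k1 | k1 | k1 <;> rcases k2 with k2 | k2 | k2
      · left; have := dvd_sub k2 k1; have e : (2 - h) - (1 - h) = 1 := by ring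
        rwa [e] at this
      · right; left; exact k2
      · right; right; have := dvd_add k1 k2; have e : (1 - h) + (2 + h) = 3 := by ring
        rwa [e] at this
      · left; exact k1
      · left; exact k1
      · left; exact k1
      · right; right; have := dvd_add k1 k2; have e : (1 + h) + (2 - h) = 3 := by ring
        rwa [e] at this
      · right; left; exact k2
      · left; have := dvd_sub k2 k1; have e : (2 + h) - (1 + h) = 1 := by ring
        rwa [e] at this
    rcases h12 with h4 | h4 | h4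
    · exact absurd (h4.trans (one_dvd h)) hdh
    · have h5 : d.natAbs ∣ 2 := by
        have := Int.natAbs_dvd_natAbs.2 h4
        simpa using this
      rcases (Nat.dvd_prime Nat.prime_two).1 h5 with h6 | h6
      · exfalso
        apply hdh
        exact (Int.natAbs_dvd.1 (by rw [h6]; simp))
      · exact h6
    · have h5 : d.natAbs ∣ 3 := by
        have := Int.natAbs_dvd_natAbs.2 h4
        simpa using this
      rcases (Nat.dvd_prime Nat.prime_three).1 h5 with h6 | h6
      · exfalso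
        apply hdh
        exact (Int.natAbs_dvd.1 (by rw [h6]; simp))
      · exfalso
        apply hdh
        refine Int.natAbs_dvd.1 ?_
        rw [h6]
        exact_mod_cast h3
  intro z
  rw [hdP, ← Int.natAbs_dvd, hd4]
  norm_num

/-- **second rigidity lemma** -/
theorem rigid_two {P : Set ℤ} (hP : Star P) {h : ℤ} (h3 : ¬ (3 : ℤ) ∣ h) (hh : h ∉ Sg P)
    (h2P : ¬ ∀ z : ℤ, z ∈ P ↔ (2 : ℤ) ∣ z) :
    (∀ z : ℤ, (3 : ℤ) ∣ z → z ∈ P) ∨ ∀ z : ℤ, (9 : ℤ) ∣ z → z ∈ P := by
  have h0 := zero_mem hP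
  have rule : ∀ p ∈ P, ∀ q ∈ P, p + q - h ∉ P ∧ p + q + h ∉ P := by
    intro p hp q hq
    constructor
    · intro hr
      exact hh ⟨p, hp, q, hq, _, hr, Or.inl (by ring)⟩
    · intro hr
      exact hh ⟨p, hp, q, hq, _, hr, Or.inr (by ring)⟩
  have hhP : h ∉ P := by
    have := (rule 0 h0 0 h0).2
    simpa using this
  have gap : ∀ y : ℤ, (3 : ℤ) ∣ y → y - h ∈ P ∨ y ∈ P ∨ y + h ∈ P := by
    intro y hy
    have h4 := star4 hP 0 h y (y + h) (by
      refine ⟨-h, ?_, ?_, ?_, ?_⟩ <;> omega)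
    rcases h4 with h4 | h4 | h4 | h4 | h4 | h4
    · exact absurd (by simpa using h4) hhP
    · right; left; simpa using h4
    · right; right; simpa using h4
    · left; exact h4
    · right; left
      have e : y + h - h = y := by ring
      rwa [e] at h4
    · exact absurd (by simpa using h4) hhP
  have add : ∀ p ∈ P, ∀ q ∈ P, (3 : ℤ) ∣ p → (3 : ℤ) ∣ q → p + q ∈ P := by
    intro p hp q hq hp3 hq3
    obtain ⟨r1, r2⟩ := rule p hp q hq
    rcases gap (p + q) (dvd_add hp3 hq3) with h4 | h4 | h4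
    · exact absurd h4 r1
    · exact h4
    · exact absurd h4 r2
  have neg : ∀ p ∈ P, (3 : ℤ) ∣ p → -p ∈ P := by
    intro p hp hp3
    rcases gap (-p) (hp3.neg_right) with h4 | h4 | h4
    · exfalso
      have := (rule p hp _ h4).2
      apply this
      have e : p + (-p - h) + h = 0 := by ring
      rwa [e]
    · exact h4
    · exfalso
      have := (rule p hp _ h4).1
      apply this
      have e : p + (-p + h) - h = 0 := by ring
      rwa [e]
  set G : AddSubgroup ℤ := { carrier := {z | z ∈ P ∧ (3 : ℤ) ∣ z}, zero_mem' := ⟨h0, dvd_zero _⟩,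
                             add_mem' := fun {a b} ha hb => ⟨add a ha.1 b hb.1 ha.2 hb.2,
                               dvd_add ha.2 hb.2⟩,
                             neg_mem' := fun {a} ha => ⟨neg a ha.1 ha.2, ha.2.neg_right⟩ } with hG
  obtain ⟨d, hd⟩ := Int.subgroup_cyclic G
  have hdP : ∀ z : ℤ, (z ∈ P ∧ (3 : ℤ) ∣ z) ↔ d ∣ z := by
    intro z
    have e1 : (z ∈ P ∧ (3 : ℤ) ∣ z) ↔ z ∈ G := Iff.rfl
    rw [e1, hd, ← AddSubgroup.zmultiples_eq_closure, Int.mem_zmultiples_iff]
  have hd3 : (3 : ℤ) ∣ d := ((hdP d).2 dvd_rfl).2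
  have h369 : d ∣ 3 ∨ d ∣ 6 ∨ d ∣ 9 := by
    have h5 := star4 hP 0 3 6 9 ⟨1, by norm_num, by norm_num, by norm_num, by norm_num⟩
    norm_num at h5
    rcases h5 with h5 | h5 | h5 | h5 | h5 | h5
    · left; exact (hdP 3).1 ⟨h5, by norm_num⟩
    · right; left; exact (hdP 6).1 ⟨h5, by norm_num⟩
    · right; right; exact (hdP 9).1 ⟨h5, by norm_num⟩
    · left; exact (hdP 3).1 ⟨h5, by norm_num⟩
    · right; left; exact (hdP 6).1 ⟨h5, by norm_num⟩
    · left; exact (hdP 3).1 ⟨h5, by norm_num⟩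
  rcases h369 with h4 | h4 | h4
  · left
    intro z hz
    exact ((hdP z).2 (h4.trans hz)).1
  · -- `6`
    by_cases h33 : (3 : ℤ) ∈ P
    · left
      intro z hz
      exact ((hdP z).2 (((hdP 3).1 ⟨h33, dvd_rfl⟩).trans hz)).1
    · exfalso
      have h6 : ∀ z : ℤ, (6 : ℤ) ∣ z → z ∈ P := fun z hz => ((hdP z).2 (h4.trans hz)).1
      have hodd3 : ∀ z ∈ P, (3 : ℤ) ∣ z → (6 : ℤ) ∣ z := by
        intro z hz hz3
        by_contra hcon
        apply h33
        have h5 : (6 : ℤ) ∣ 3 - z := by omega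
        have h6' := add z hz (3 - z) (h6 _ h5) hz3 (by omega)
        have e : z + (3 - z) = 3 := by ring
        rwa [e] at h6'
      by_cases hodd : ∃ p ∈ P, ¬ (2 : ℤ) ∣ p
      · obtain ⟨p, hp, hp2⟩ := hodd
        have hp3 : ¬ (3 : ℤ) ∣ p := fun h => by have := hodd3 p hp h; omega
        have hp6 : p % 6 = 1 ∨ p % 6 = 5 := by omega
        by_cases hh2 : (2 : ℤ) ∣ h
        · have hh6 : h % 6 = 2 ∨ h % 6 = 4 := by omega
          rcases (show (6 : ℤ) ∣ h + 2 * p ∨ (6 : ℤ) ∣ h - 2 * p by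
            rcases hp6 with e1 | e1 <;> rcases hh6 with e2 | e2 <;> omega) with h5 | h5
          · exact hh ⟨p, hp, p, hp, _, h6 _ h5, Or.inr (by ring)⟩
          · exact hh ⟨p, hp, p, hp, _, h6 _ (h5.neg_right), Or.inl (by ring)⟩
        · have hh6 : h % 6 = 1 ∨ h % 6 = 5 := by omega
          rcases (show (6 : ℤ) ∣ h - p ∨ (6 : ℤ) ∣ h + p by
            rcases hp6 with e1 | e1 <;> rcases hh6 with e2 | e2 <;> omega) with h5 | h5
          · exact hh ⟨p, hp, _, h6 _ h5, 0, h0, Or.inl (by ring)⟩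
          · exact hh ⟨_, h6 _ h5, 0, h0, p, hp, Or.inl (by ring)⟩
      · push Not at hodd
        apply h2P
        refine rigid_one hP (h := 3) (by norm_num) ?_
        rintro ⟨p, hp, q, hq, r, hr, h5⟩
        have e1 := hodd p hp
        have e2 := hodd q hq
        have e3 := hodd r hr
        omega
  · right
    intro z hz
    exact ((hdP z).2 (h4.trans hz)).1

/-- **the structure theorem** -/
theorem trich {P : Set ℤ} (hP : Star P) :
    ∃ E : ℤ, (E = 1 ∨ E = 2 ∨ E = 3) ∧ (∀ n : ℤ, E * n ∈ Sg P) ∧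
      (E ≠ 1 → ∃ g : ℤ, (g = E ∨ (E = 3 ∧ g = 9)) ∧ ∀ n : ℤ, g * n ∈ P) := by
  have h0 := zero_mem hP
  have hsub : ∀ z ∈ P, z ∈ Sg P := fun z hz => ⟨z, hz, 0, h0, 0, h0, Or.inl (by ring)⟩
  by_cases hall : ∀ n : ℤ, n ∈ Sg P
  · exact ⟨1, Or.inl rfl, fun n => hall _, fun h => absurd rfl h⟩
  by_cases h2P : ∀ z : ℤ, z ∈ P ↔ (2 : ℤ) ∣ z
  · exact ⟨2, Or.inr (Or.inl rfl), fun n => hsub _ ((h2P _).2 (Dvd.intro _ rfl)),
      fun _ => ⟨2, Or.inl rfl, fun n => (h2P _).2 (Dvd.intro _ rfl)⟩⟩
  · have h3 : ∀ n : ℤ, 3 * n ∈ Sg P := by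
      intro n
      by_contra hcon
      exact h2P (rigid_one hP (Dvd.intro _ rfl) hcon)
    refine ⟨3, Or.inr (Or.inr rfl), h3, fun _ => ?_⟩
    push Not at hall
    obtain ⟨h, hh⟩ := hall
    have hh3 : ¬ (3 : ℤ) ∣ h := by
      rintro ⟨t, rfl⟩
      exact hh (h3 t)
    rcases rigid_two hP hh3 hh h2P with h4 | h4
    · exact ⟨3, Or.inl rfl, fun n => h4 _ (Dvd.intro _ rfl)⟩
    · exact ⟨9, Or.inr ⟨rfl, rfl⟩, fun n => h4 _ (Dvd.intro _ rfl)⟩

/-- **two summands** -/
theorem two {P : Set ℤ} (hP : Star P) (n : ℤ) :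
    (∃ a ∈ P, ∃ b ∈ P, 9 * n = a - b) ∨ ∃ a ∈ P, ∃ b ∈ P, 18 * n = a - b := by
  by_contra hcon
  push Not at hcon
  obtain ⟨hc1, hc2⟩ := hcon
  have h0 := zero_mem hP
  obtain ⟨h, hh⟩ : ∃ h : ℤ, h = 9 * n := ⟨_, rfl⟩
  have d1 : ∀ a ∈ P, a + h ∉ P := fun a ha hb => hc1 _ hb a ha (by rw [hh]; ring)
  have d1' : ∀ a ∈ P, a - h ∉ P := fun a ha hb => hc1 a ha _ hb (by rw [hh]; ring)
  have d2 : ∀ a ∈ P, a + 2 * h ∉ P := fun a ha hb => hc2 _ hb a ha (by rw [hh]; ring)
  have d2' : ∀ a ∈ P, a - 2 * h ∉ P := fun a ha hb => hc2 a ha _ hb (by rw [hh]; ring)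
  have hhP : h ∉ P := by simpa using d1 0 h0
  have gap : ∀ y : ℤ, y - h ∈ P ∨ y ∈ P ∨ y + h ∈ P := by
    intro y
    have h4 := star4 hP 0 h y (y + h) (by
      rcases (show y % 3 = 0 ∨ y % 3 = 1 ∨ y % 3 = 2 by omega) with h5 | h5 | h5
      · exact ⟨1, by omega, by omega, by omega, by omega⟩
      · exact ⟨2, by omega, by omega, by omega, by omega⟩
      · exact ⟨1, by omega, by omega, by omega, by omega⟩)
    rcases h4 with h4 | h4 | h4 | h4 | h4 | h4
    · exact absurd (by simpa using h4) hhP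
    · right; left; simpa using h4
    · right; right; simpa using h4
    · left; exact h4
    · right; left
      have e : y + h - h = y := by ring
      rwa [e] at h4
    · exact absurd (by simpa using h4) hhP
  have up : ∀ a ∈ P, a + 3 * h ∈ P := by
    intro a ha
    rcases gap (a + 2 * h) with h4 | h4 | h4
    · exact absurd (by have e : a + 2 * h - h = a + h := by ring
                       rwa [e] at h4) (d1 a ha)
    · exact absurd h4 (d2 a ha)
    · have e : a + 2 * h + h = a + 3 * h := by ring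
      rwa [e] at h4
  have dn : ∀ a ∈ P, a - 3 * h ∈ P := by
    intro a ha
    rcases gap (a - 2 * h) with h4 | h4 | h4
    · have e : a - 2 * h - h = a - 3 * h := by ring
      rwa [e] at h4
    · exact absurd h4 (d2' a ha)
    · exact absurd (by have e : a - 2 * h + h = a - h := by ring
                       rwa [e] at h4) (d1' a ha)
  have per : ∀ t : ℤ, ∀ a ∈ P, a + 3 * t * h ∈ P := by
    intro t
    induction t using Int.induction_on with
    | zero => intro a ha; simpa using ha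
    | succ t ih =>
      intro a ha
      have := up _ (ih a ha)
      have e : a + 3 * (t : ℤ) * h + 3 * h = a + 3 * (t + 1) * h := by ring
      rwa [e] at this
    | pred t ih =>
      intro a ha
      have := dn _ (ih a ha)
      have e : a + 3 * (-(t : ℤ)) * h - 3 * h = a + 3 * (-t - 1) * h := by ring
      rwa [e] at this
  have nop : ∀ a ∈ P, ∀ s : ℤ, a + s * h ∈ P → (3 : ℤ) ∣ s := by
    intro a ha s hs
    rcases (show s % 3 = 0 ∨ s % 3 = 1 ∨ s % 3 = 2 by omega) with h5 | h5 | h5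
    · exact Int.dvd_of_emod_eq_zero h5
    · exfalso
      have h6 := per (s / 3) a ha
      apply d1 _ h6
      have e : a + 3 * (s / 3) * h + h = a + s * h := by
        have : s = 3 * (s / 3) + 1 := by omega
        linear_combination (-h) * this
      rwa [e]
    · exfalso
      have h6 := per (s / 3) a ha
      apply d2 _ h6
      have e : a + 3 * (s / 3) * h + 2 * h = a + s * h := by
        have : s = 3 * (s / 3) + 2 := by omega
        linear_combination (-h) * this
      rwa [e]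
  have h3h : (3 : ℤ) ∣ h := by omega
  have sel : ∀ t α β : ℤ, (t = 1 ∨ t = -1) → (α = 0 ∨ α = 1 ∨ α = -1) → (β = 0 ∨ β = 1 ∨ β = -1) →
      ∃ i j k : ℤ, ¬ (3 : ℤ) ∣ i ∧ ¬ (3 : ℤ) ∣ j + t ∧ ¬ (3 : ℤ) ∣ k ∧ ¬ (3 : ℤ) ∣ j - i ∧
        ¬ (3 : ℤ) ∣ k - i + α ∧ ¬ (3 : ℤ) ∣ k - j + β := by
    rintro t α β (rfl | rfl) (rfl | rfl | rfl) (rfl | rfl | rfl) <;> first
      | exact ⟨1, 0, 1, by decide, by decide, by decide, by decide, by decide, by decide⟩
      | exact ⟨1, 0, -1, by decide, by decide, by decide, by decide, by decide, by decide⟩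
      | exact ⟨1, 1, 1, by decide, by decide, by decide, by decide, by decide, by decide⟩
      | exact ⟨1, 1, -1, by decide, by decide, by decide, by decide, by decide, by decide⟩
      | exact ⟨1, -1, 1, by decide, by decide, by decide, by decide, by decide, by decide⟩
      | exact ⟨1, -1, -1, by decide, by decide, by decide, by decide, by decide, by decide⟩
      | exact ⟨-1, 0, 1, by decide, by decide, by decide, by decide, by decide, by decide⟩
      | exact ⟨-1, 0, -1, by decide, by decide, by decide, by decide, by decide, by decide⟩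
      | exact ⟨-1, 1, 1, by decide, by decide, by decide, by decide, by decide, by decide⟩
      | exact ⟨-1, 1, -1, by decide, by decide, by decide, by decide, by decide, by decide⟩
      | exact ⟨-1, -1, 1, by decide, by decide, by decide, by decide, by decide, by decide⟩
      | exact ⟨-1, -1, -1, by decide, by decide, by decide, by decide, by decide, by decide⟩
  have sgn : ∀ y : ℤ, ∃ s : ℤ, (s = 0 ∨ s = 1 ∨ s = -1) ∧ y - s * h ∈ P := by
    intro y
    rcases gap y with h4 | h4 | h4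
    · exact ⟨1, by simp, by simpa using h4⟩
    · exact ⟨0, by simp, by simpa using h4⟩
    · exact ⟨-1, by simp, by simpa using h4⟩
  have add : ∀ p ∈ P, ∀ q ∈ P, (3 : ℤ) ∣ p → (3 : ℤ) ∣ q → p + q ∈ P := by
    intro p hp q hq hp3 hq3
    obtain ⟨t, ht, htP⟩ := sgn (p + q)
    rcases ht with rfl | ht
    · simpa using htP
    exfalso
    obtain ⟨α, hα, hαP⟩ := sgn (-p)
    obtain ⟨β, hβ, hβP⟩ := sgn (-p - q)
    obtain ⟨i, j, k, k1, k2, k3, k4, k5, k6⟩ := sel t α β ht hα hβ
    have h4 := star4 hP 0 (p + i * h) (p + q + j * h) (k * h) ⟨1, by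
      constructor
      · norm_num
      · have := Dvd.dvd.mul_left h3h i
        have := Dvd.dvd.mul_left h3h j
        have := Dvd.dvd.mul_left h3h k
        refine ⟨by omega, by omega, by omega⟩⟩
    rcases h4 with h4 | h4 | h4 | h4 | h4 | h4
    · exact k1 (nop p hp i (by convert h4 using 1; ring))
    · exact k2 (nop _ htP (j + t) (by convert h4 using 1; ring))
    · exact k3 (nop 0 h0 k (by convert h4 using 1; ring))
    · exact k4 (nop q hq (j - i) (by convert h4 using 1; ring))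
    · exact k5 (nop _ hαP (k - i + α) (by convert h4 using 1; ring))
    · exact k6 (nop _ hβP (k - j + β) (by convert h4 using 1; ring))
  have mul : ∀ m ∈ P, (3 : ℤ) ∣ m → ∀ t : ℕ, (t : ℤ) * m ∈ P := by
    intro m hm hm3 t
    induction t with
    | zero => simpa using h0
    | succ t ih =>
      have := add _ ih _ hm (Dvd.dvd.mul_left hm3 _) hm3
      push_cast
      have e : ((t : ℤ) + 1) * m = t * m + m := by ring
      rwa [e]
  have fin9 : ∀ m ∈ P, (3 : ℤ) ∣ m → (m = 3 ∨ m = 6 ∨ m = 9) → False := by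
    intro m hm hm3 hmm
    have hsg : ∀ t : ℕ, (t : ℤ) * m ≠ h ∧ (t : ℤ) * m ≠ -h ∧ (t : ℤ) * m ≠ 2 * h ∧ (t : ℤ) * m ≠ -(2 * h) := by
      intro t
      have ht := mul m hm hm3 t
      refine ⟨fun e => hhP (e ▸ ht), fun e => ?_, fun e => ?_, fun e => ?_⟩
      · have := d1' 0 h0
        rw [e] at ht
        exact this (by simpa using ht)
      · have := d2 0 h0
        rw [e] at ht
        exact this (by simpa using ht)
      · have := d2' 0 h0
        rw [e] at ht
        exact this (by simpa using ht)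
    rcases hmm with rfl | rfl | rfl
    · obtain ⟨e1, e2, -, -⟩ := hsg (3 * n.natAbs)
      push_cast at e1 e2
      rw [Int.abs_eq_natAbs] at e1 e2
      omega
    · obtain ⟨-, -, e1, e2⟩ := hsg (3 * n.natAbs)
      push_cast at e1 e2
      rw [Int.abs_eq_natAbs] at e1 e2
      omega
    · obtain ⟨e1, e2, -, -⟩ := hsg n.natAbs
      push_cast at e1 e2
      rw [Int.abs_eq_natAbs] at e1 e2
      omega
  have h5 := star4 hP 0 3 6 9 ⟨1, by norm_num, by norm_num, by norm_num, by norm_num⟩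
  norm_num at h5
  rcases h5 with h5 | h5 | h5 | h5 | h5 | h5
  · exact fin9 3 h5 (by norm_num) (by simp)
  · exact fin9 6 h5 (by norm_num) (by simp)
  · exact fin9 9 h5 (by norm_num) (by simp)
  · exact fin9 3 h5 (by norm_num) (by simp)
  · exact fin9 6 h5 (by norm_num) (by simp)
  · exact fin9 3 h5 (by norm_num) (by simp)

end Pool.Agent.N790.GS
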