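import Mathlib
import Pool.Agent.N790.GS.Alg
import Pool.Agent.R494.CG7

/-! The limit set of the gaps between consecutive primes has the four point property. -/

set_option autoImplicit false

namespace Pool.Agent.N790.GS

open Finset Filter
open Pool.Agent.R494.CG Pool.Agent.R494.BGen

/-- gaps between consecutive primes -/
def D (q : ℕ) (r : ℤ) : Set ℤ := {w | (fun _ : Fin 1 => w) ∈ GV q r 1}

/-- the ultrafilter -/
noncomputable def U : Ultrafilter ℕ := Filter.hyperfilter ℕ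

/-- the sequence of the factorials -/
def fc (i : ℕ) : ℤ := (Nat.factorial i : ℤ)

/-- the limit set -/
def P (q : ℕ) (r : ℤ) : Set ℤ :=
  {z | ∀ᶠ i in (U : Filter ℕ), ∀ᶠ j in (U : Filter ℕ), fc j - fc i + z ∈ D q r}

theorem ev_ge (n : ℕ) : ∀ᶠ i in (U : Filter ℕ), n ≤ i :=
  Nat.hyperfilter_le_atTop (Filter.eventually_ge_atTop n)

theorem fc_big (i : ℕ) (B : ℤ) : ∀ᶠ j in (U : Filter ℕ), fc i + B < fc j := by
  filter_upwards [ev_ge (Nat.factorial i + B.toNat + 1)] with j hj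
  unfold fc
  have h1 : j ≤ Nat.factorial j := Nat.self_le_factorial j
  have h2 : B ≤ (B.toNat : ℤ) := Int.self_le_toNat B
  have h3 : ((Nat.factorial i + B.toNat + 1 : ℕ) : ℤ) ≤ (Nat.factorial j : ℤ) := by
    exact_mod_cast hj.trans h1
  push_cast at h3
  linarith

theorem fc_dvd {p i : ℕ} (hp : 0 < p) (h : p ≤ i) : (p : ℤ) ∣ fc i := by
  unfold fc
  exact_mod_cast Nat.dvd_factorial hp h

/-- adjacent elements of different blocks -/
theorem adj {K : ℕ} (x : Fin 4 → Fin K → ℤ) (X : Finset ℤ)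
    (hX : X ⊆ univ.image (fun y : Fin 4 × Fin K => x y.1 y.2))
    (hlt : ∀ g g' i i', g < g' → x g i < x g' i')
    (h2 : 1 + 1 ≤ (univ.filter (fun g : Fin 4 => ∃ i, x g i ∈ X)).card) :
    ∃ j, j + 1 < X.card ∧ ∃ g g' i i', g < g' ∧ en X j = x g i ∧ en X (j + 1) = x g' i' := by
  classical
  obtain ⟨g₁, hg₁, g₂, hg₂, hne⟩ := one_lt_card.1 (show 1 < (univ.filter (fun g : Fin 4 => ∃ i, x g i ∈ X)).card by omega)
  obtain ⟨i₁, hi₁⟩ := (mem_filter.1 hg₁).2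
  obtain ⟨i₂, hi₂⟩ := (mem_filter.1 hg₂).2
  set S := (X ×ˢ X).filter (fun uv => ∃ g g' i i', g < g' ∧ uv.1 = x g i ∧ uv.2 = x g' i') with hS
  have hSne : S.Nonempty := by
    rcases lt_or_gt_of_ne hne with h | h
    · exact ⟨(x g₁ i₁, x g₂ i₂), mem_filter.2 ⟨mem_product.2 ⟨hi₁, hi₂⟩, g₁, g₂, i₁, i₂, h, rfl, rfl⟩⟩
    · exact ⟨(x g₂ i₂, x g₁ i₁), mem_filter.2 ⟨mem_product.2 ⟨hi₂, hi₁⟩, g₂, g₁, i₂, i₁, h, rfl, rfl⟩⟩
  obtain ⟨⟨u, v⟩, huv, hmin⟩ := exists_min_image S (fun uv => uv.2 - uv.1) hSne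
  obtain ⟨hm, g, g', i, i', hgg, hu, hv⟩ := mem_filter.1 huv
  obtain ⟨huX, hvX⟩ := mem_product.1 hm
  simp only at huX hvX hu hv hmin
  have huv' : u < v := by rw [hu, hv]; exact hlt _ _ _ _ hgg
  have hno : ∀ w ∈ X, u < w → w < v → False := by
    intro w hw h1 h2
    obtain ⟨⟨g'', i''⟩, -, hw'⟩ := mem_image.1 (hX hw)
    simp only at hw'
    rcases lt_or_ge g g'' with h3 | h3
    · have := hmin (u, w) (mem_filter.2 ⟨mem_product.2 ⟨huX, hw⟩, g, g'', i, i'', h3, hu, hw'.symm⟩)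
      simp only at this
      linarith
    · have := hmin (w, v) (mem_filter.2 ⟨mem_product.2 ⟨hw, hvX⟩, g'', g', i'', i',
        lt_of_le_of_lt h3 hgg, hw'.symm, hv⟩)
      simp only at this
      linarith
  obtain ⟨j, hj, hju⟩ := en_surj huX
  obtain ⟨l, hl, hlv⟩ := en_surj hvX
  have hjl : j < l := lt_of_en hj (by rw [hju, hlv]; exact huv')
  have hl1 : l = j + 1 := by
    by_contra hcon
    have h3 : j + 1 < l := by omega
    refine hno (en X (j + 1)) (en_mem (h3.trans hl)) ?_ ?_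
    · rw [← hju]; exact en_lt (Nat.lt_succ_self j) (h3.trans hl)
    · rw [← hlv]; exact en_lt h3 hl
  subst hl1
  exact ⟨j, hl, g, g', i, i', hgg, by rw [hju, hu], by rw [hlv, hv]⟩

/-- **the four point property** -/
theorem star (q : ℕ) (r : ℤ) (hq : 1 ≤ q) (hq2 : 2 ∣ q) (hqr : IsCoprime r (q : ℤ)) : Star (P q r) := by
  classical
  intro e he
  by_contra hcon
  push Not at hcon
  -- the sieve
  obtain ⟨c₀, hc₀, hc₁, hQ⟩ := qg
  obtain ⟨K, hK, hQK⟩ := hQ 4 1 (by norm_num) (by push_cast; linarith)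
  -- the bound
  set B : ℤ := ∑ g, 2 * |e g| with hB
  have hBe : ∀ g g', e g - e g' ≤ B := by
    intro g g'
    have h1 : ∑ g'' ∈ ({g, g'} : Finset (Fin 4)), 2 * |e g''| ≤ B :=
      sum_le_sum_of_subset_of_nonneg (subset_univ _) fun _ _ _ => by positivity
    have h2 : |e g| + |e g'| ≤ ∑ g'' ∈ ({g, g'} : Finset (Fin 4)), 2 * |e g''| := by
      by_cases h : g = g'
      · subst h; simp; linarith
      · rw [sum_pair h]
        have := abs_nonneg (e g)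
        have := abs_nonneg (e g')
        linarith
    have h3 := le_abs_self (e g)
    have h4 := neg_abs_le (e g')
    linarith
  have hev : ∀ a b : Fin 4, a < b → ∀ᶠ i in (U : Filter ℕ), ∀ᶠ j in (U : Filter ℕ),
      fc j - fc i + (e b - e a) ∉ D q r := by
    intro a b hab
    have h1 := hcon a b hab
    unfold P at h1
    rw [Set.mem_ofPred_eq, ← Ultrafilter.eventually_not] at h1
    filter_upwards [h1] with i hi
    rwa [← Ultrafilter.eventually_not] at hi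
  obtain ⟨f, hf1, hf2⟩ := exists_seq_of_forall_finset_exists
    (fun i : ℕ => 4 * K ≤ i ∧ ∀ a b : Fin 4, a < b → ∀ᶠ j in (U : Filter ℕ), fc j - fc i + (e b - e a) ∉ D q r)
    (fun i j : ℕ => fc i + B < fc j ∧ ∀ a b : Fin 4, a < b → fc j - fc i + (e b - e a) ∉ D q r)
    (by
      intro s hs
      have h1 : ∀ᶠ y in (U : Filter ℕ), 4 * K ≤ y ∧ ∀ a b : Fin 4, a < b → ∀ᶠ j in (U : Filter ℕ),
          fc j - fc y + (e b - e a) ∉ D q r := by
        refine (ev_ge (4 * K)).and ?_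
        rw [Filter.eventually_all]
        intro a
        rw [Filter.eventually_all]
        intro b
        by_cases hab : a < b
        · filter_upwards [hev a b hab] with y hy _
          exact hy
        · exact Filter.Eventually.of_forall fun y h => absurd h hab
      have h2 : ∀ᶠ y in (U : Filter ℕ), ∀ x ∈ s, fc x + B < fc y ∧
          ∀ a b : Fin 4, a < b → fc y - fc x + (e b - e a) ∉ D q r := by
        rw [Filter.eventually_all_finset]
        intro x hx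
        refine (fc_big x B).and ?_
        rw [Filter.eventually_all]
        intro a
        rw [Filter.eventually_all]
        intro b
        by_cases hab : a < b
        · filter_upwards [(hs x hx).2 a b hab] with y hy _
          exact hy
        · exact Filter.Eventually.of_forall fun y h => absurd h hab
      exact (h1.and h2).exists)
  -- the classes
  set x : Fin 4 → Fin K → ℤ := fun g i => fc (f (i + K * g)) + e g with hx
  have hidx : ∀ g g' : Fin 4, ∀ i i' : Fin K, (i : ℕ) + K * g < i' + K * g' → x g i < x g' i' := by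
    intro g g' i i' h
    have h1 := (hf2 _ _ h).1
    have h2 := hBe g g'
    simp only [hx]
    linarith
  have hlt : ∀ g g' i i', g < g' → x g i < x g' i' := by
    intro g g' i i' hgg
    apply hidx
    have h1 : (g : ℕ) + 1 ≤ g' := hgg
    have h2 : K * ((g : ℕ) + 1) ≤ K * g' := Nat.mul_le_mul_left K h1
    have h3 := i.2
    nlinarith
  have hinj : Function.Injective (fun y : Fin 4 × Fin K => x y.1 y.2) := by
    rintro ⟨g, i⟩ ⟨g', i'⟩ h
    simp only at h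
    have hgg : g = g' := by
      rcases lt_trichotomy g g' with h1 | h1 | h1
      · exact absurd h (hlt _ _ _ _ h1).ne
      · exact h1
      · exact absurd h (hlt _ _ _ _ h1).ne'
    subst hgg
    rcases lt_trichotomy i i' with h1 | h1 | h1
    · exact absurd h (hidx _ _ _ _ (by have : (i : ℕ) < i' := h1; omega)).ne
    · rw [h1]
    · exact absurd h (hidx _ _ _ _ (by have : (i' : ℕ) < i := h1; omega)).ne'
  have hadm : ∀ p : ℕ, p.Prime → p ≤ 4 * K → ¬ (p : ℤ) ∣ q → ∃ c : ℤ, ∀ g i, ¬ (p : ℤ) ∣ x g i - c := by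
    intro p hp hpK hpq
    have hdv : ∀ g : Fin 4, ∀ i : Fin K, (p : ℤ) ∣ fc (f (i + K * g)) := fun g i =>
      fc_dvd hp.pos (hpK.trans (hf1 _).1)
    have key : ∀ c : ℤ, (∀ g, ¬ (p : ℤ) ∣ e g - c) → ∀ g i, ¬ (p : ℤ) ∣ x g i - c := by
      intro c hc g i hd
      apply hc g
      have h1 := dvd_sub hd (hdv g i)
      have e1 : x g i - c - fc (f (i + K * g)) = e g - c := by simp only [hx]; ring
      rwa [e1] at h1
    have hp2 : p ≠ 2 := by
      rintro rfl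
      exact hpq (by exact_mod_cast hq2)
    by_cases hp3 : p = 3
    · subst hp3
      obtain ⟨c, hc⟩ := he
      exact ⟨c, key c (by exact_mod_cast hc)⟩
    · have hp5 : 4 * 1 < p := by
        have := hp.two_le
        have h4 : p ≠ 4 := by rintro rfl; exact absurd hp (by norm_num)
        omega
      obtain ⟨n, hn⟩ := exists_shift_int hp hp5 (fun g (_ : Fin 1) => e g)
      refine ⟨-n, key _ fun g hd => hn g 0 ?_⟩
      have e1 : e g - -n = n + e g := by ring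
      rwa [e1] at hd
  obtain ⟨X, hXU, hX2, hXE⟩ := exact_all 4 K 1 hQK q r hq hqr x hinj hadm
  obtain ⟨j, hj, g, g', i, i', hgg, h1, h2⟩ := adj x X hXU hlt hX2
  have hw := win (k := 1) hq hXE (j := j) hj
  have hD : x g' i' - x g i ∈ D q r := by
    unfold D
    rw [Set.mem_ofPred_eq, ← h1, ← h2]
    convert hw using 2 with t
    fin_cases t
    simp
  have hidx' : (i : ℕ) + K * g < i' + K * g' := by
    have h1 : (g : ℕ) + 1 ≤ g' := hgg
    have h2 : K * ((g : ℕ) + 1) ≤ K * g' := Nat.mul_le_mul_left K h1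
    have h3 := i.2
    nlinarith
  have h3 := (hf2 _ _ hidx').2 g g' hgg
  apply h3
  have e1 : fc (f (i' + K * g')) - fc (f (i + K * g)) + (e g' - e g) = x g' i' - x g i := by
    simp only [hx]; ring
  rw [e1]
  exact hD

/-- eventually large -/
theorem large (i : ℕ) (z C : ℤ) : ∀ᶠ j in (U : Filter ℕ), C ≤ fc j - fc i + z := by
  filter_upwards [fc_big i (C - z)] with j hj
  linarith

/-- sums of three elements of the limit set -/
theorem three {q : ℕ} {r : ℤ} {z₁ z₂ z₃ : ℤ} (h₁ : z₁ ∈ P q r) (h₂ : z₂ ∈ P q r) (h₃ : z₃ ∈ P q r)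
    (C : ℤ) : ∃ a b c : ℤ, C ≤ a ∧ C ≤ b ∧ C ≤ c ∧ a ∈ D q r ∧ b ∈ D q r ∧ c ∈ D q r ∧
      z₁ + z₂ - z₃ = a + b - c := by
  obtain ⟨i, ⟨hi1, hi3⟩⟩ := (h₁.and h₃).exists
  obtain ⟨j, ⟨hj1, hj2⟩, hjC⟩ := ((hi1.and h₂).and (large i z₁ C)).exists
  obtain ⟨k, ⟨hk2, hk3⟩, hkC2, hkC3⟩ := ((hj2.and hi3).and ((large j z₂ C).and (large i z₃ C))).exists
  exact ⟨_, _, _, hjC, hkC2, hkC3, hj1, hk2, hk3, by ring⟩

/-- differences of two elements of the limit set -/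
theorem diff {q : ℕ} {r : ℤ} {z₁ z₂ : ℤ} (h₁ : z₁ ∈ P q r) (h₂ : z₂ ∈ P q r) (C : ℤ) :
    ∃ a b : ℤ, C ≤ a ∧ C ≤ b ∧ a ∈ D q r ∧ b ∈ D q r ∧ z₁ - z₂ = a - b := by
  obtain ⟨i, ⟨hi1, hi2⟩⟩ := (h₁.and h₂).exists
  obtain ⟨j, ⟨hj1, hj2⟩, hjC1, hjC2⟩ := ((hi1.and hi2).and ((large i z₁ C).and (large i z₂ C))).exists
  exact ⟨_, _, hjC1, hjC2, hj1, hj2, by ring⟩

/-- long strings -/
theorem strings {q : ℕ} {r g : ℤ} (h : ∀ n : ℤ, g * n ∈ P q r) (L M : ℕ) (hM : 0 < M) :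
    ∃ d : ℤ, (M : ℤ) ≤ d ∧ (M : ℤ) ∣ d ∧ ∀ i ≤ L, d + g * i ∈ D q r := by
  have h1 : ∀ᶠ i in (U : Filter ℕ), ∀ l ∈ range (L + 1), ∀ᶠ j in (U : Filter ℕ),
      fc j - fc i + g * l ∈ D q r := by
    rw [Filter.eventually_all_finset]
    intro l _
    exact h l
  obtain ⟨i, hi, hiM⟩ := (h1.and (ev_ge M)).exists
  have h2 : ∀ᶠ j in (U : Filter ℕ), ∀ l ∈ range (L + 1), fc j - fc i + g * l ∈ D q r := by
    rw [Filter.eventually_all_finset]
    exact hi
  obtain ⟨j, ⟨hj, hjM⟩, hjl⟩ := ((h2.and (ev_ge M)).and (large i 0 M)).exists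
  exact ⟨fc j - fc i, by simpa using hjl, dvd_sub (fc_dvd hM hjM) (fc_dvd hM hiM),
    fun l hl => hj l (mem_range.2 (by omega))⟩

theorem main (q : ℕ) (r : ℤ) (hq : 1 ≤ q) (hq2 : 2 ∣ q) (hqr : IsCoprime r (q : ℤ)) :
    ∃ E : ℤ, (E = 1 ∨ E = 2 ∨ E = 3) ∧
      (∀ n C : ℤ, ∃ a b c : ℤ, C ≤ a ∧ C ≤ b ∧ C ≤ c ∧
        a ∈ D q r ∧ b ∈ D q r ∧ c ∈ D q r ∧ (E * n = a + b - c ∨ E * n = c - a - b)) ∧
      (E ≠ 1 → ∃ g : ℤ, (g = E ∨ (E = 3 ∧ g = 9)) ∧ ∀ L M : ℕ, 0 < M →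
        ∃ d : ℤ, (M : ℤ) ≤ d ∧ (M : ℤ) ∣ d ∧ ∀ i ≤ L, d + g * i ∈ D q r) := by
  have hS : ∀ h ∈ Sg (P q r), ∀ C : ℤ, ∃ a b c : ℤ, C ≤ a ∧ C ≤ b ∧ C ≤ c ∧
      a ∈ D q r ∧ b ∈ D q r ∧ c ∈ D q r ∧ (h = a + b - c ∨ h = c - a - b) := by
    rintro h ⟨z₁, h₁, z₂, h₂, z₃, h₃, hh⟩ C
    obtain ⟨a, b, c, hCa, hCb, hCc, ha, hb, hc, habc⟩ := three h₁ h₂ h₃ C
    refine ⟨a, b, c, hCa, hCb, hCc, ha, hb, hc, ?_⟩
    rcases hh with hh | hh
    · left; rw [hh, habc]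
    · right; rw [hh]; linarith
  obtain ⟨E, hE, hE', h⟩ := trich (star q r hq hq2 hqr)
  refine ⟨E, hE, fun n => hS _ (hE' n), fun hE1 => ?_⟩
  obtain ⟨g, hg, hg'⟩ := h hE1
  exact ⟨g, hg, fun L M hM => strings hg' L M hM⟩

/-- one of two multiples is a difference -/
theorem main_two (q : ℕ) (r : ℤ) (hq : 1 ≤ q) (hq2 : 2 ∣ q) (hqr : IsCoprime r (q : ℤ)) (n C : ℤ) :
    ∃ a b : ℤ, C ≤ a ∧ C ≤ b ∧ a ∈ D q r ∧ b ∈ D q r ∧ (9 * n = a - b ∨ 18 * n = a - b) := by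
  rcases two (star q r hq hq2 hqr) n with ⟨z₁, h₁, z₂, h₂, hh⟩ | ⟨z₁, h₁, z₂, h₂, hh⟩
  · obtain ⟨a, b, hCa, hCb, ha, hb, hab⟩ := diff h₁ h₂ C
    exact ⟨a, b, hCa, hCb, ha, hb, Or.inl (hh.trans hab)⟩
  · obtain ⟨a, b, hCa, hCb, ha, hb, hab⟩ := diff h₁ h₂ C
    exact ⟨a, b, hCa, hCb, ha, hb, Or.inr (hh.trans hab)⟩

end Pool.Agent.N790.GS
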