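import Mathlib
import Pool.Agent.N790.GS.Gap

/-! From windows without primes to consecutive primes (`nth_step` and `conv` follow the starting file
`Pool.Agent.Results.MP_3ec731_nt.GapVectorsFormBasis`). -/

set_option autoImplicit false

namespace Pool.Agent.N790.GS

open Finset Pool.Agent.R494.CG

theorem nth_step {a b s : ℕ} (ha : Nat.nth Nat.Prime s = a) (hb : b.Prime) (hab : a < b)
    (hno : ∀ c, a < c → c < b → ¬ c.Prime) : Nat.nth Nat.Prime (s + 1) = b := by
  have h1 : Nat.nth Nat.Prime (Nat.count Nat.Prime b) = b := Nat.nth_count hb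
  have hmono := Nat.nth_strictMono Nat.infinite_setOfPred_prime
  have h2 : s < Nat.count Nat.Prime b := by
    rw [← hmono.lt_iff_lt, h1, ha]
    exact hab
  rcases Nat.lt_or_ge (s + 1) (Nat.count Nat.Prime b) with h3 | h3
  · exfalso
    have h4 : Nat.nth Nat.Prime (s + 1) < b := by
      rw [← h1]
      exact hmono h3
    have h5 : a < Nat.nth Nat.Prime (s + 1) := by
      rw [← ha]
      exact hmono (Nat.lt_succ_self s)
    exact hno _ h5 h4 (Nat.prime_nth_prime _)
  · have h4 : Nat.count Nat.Prime b = s + 1 := by omega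
    rw [← h4, h1]

theorem conv {q : ℕ} {r : ℤ} (hq : 1 ≤ q) {w : ℤ} (hg : w ∈ D q r) :
    {s : ℕ | (Nat.nth Nat.Prime s : ℤ) ≡ r [ZMOD q] ∧
      (Nat.nth Nat.Prime (s + 1) : ℤ) - Nat.nth Nat.Prime s = q * w}.Infinite := by
  obtain ⟨h, hmono, h0, hgi, hinf⟩ := hg
  have hq0 : (0 : ℤ) < q := by exact_mod_cast hq
  have hw : h (Fin.last 1) = w := by
    have h1 := hgi 0
    have e1 : (0 : Fin 1).succ = Fin.last 1 := rfl
    have e2 : (0 : Fin 1).castSucc = (0 : Fin 2) := rfl
    rw [e1, e2, h0, sub_zero] at h1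
    exact h1.symm
  have hwpos : 0 < w := by
    rw [← hw, ← h0]
    exact hmono (by simp)
  have hall : ∀ i : Fin 2, h i = 0 ∨ h i = w := by
    intro i
    fin_cases i
    · left; exact h0
    · right; exact hw
  rw [hw] at hinf
  have hinj : Set.InjOn (fun n : ℕ => Nat.count Nat.Prime n)
      {n : ℕ | (n : ℤ) ≡ r [ZMOD q] ∧ ∀ y : ℤ, 0 ≤ y → y ≤ q * w →
        (Nat.Prime ((n : ℤ) + y).toNat ↔ ∃ i, y = q * h i)} := by
    intro n hn m hm hnm
    have hnp : n.Prime := by
      have := (hn.2 0 le_rfl (by positivity)).2 ⟨0, by simp [h0]⟩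
      simpa using this
    have hmp : m.Prime := by
      have := (hm.2 0 le_rfl (by positivity)).2 ⟨0, by simp [h0]⟩
      simpa using this
    have h1 := Nat.nth_count hnp
    have h2 := Nat.nth_count hmp
    simp only at hnm
    rw [← h1, ← h2, hnm]
  refine ((hinf.image hinj)).mono ?_
  rintro s ⟨n, hn, rfl⟩
  have hnp : n.Prime := by
    have := (hn.2 0 le_rfl (by positivity)).2 ⟨0, by simp [h0]⟩
    simpa using this
  have hb0 : (0 : ℤ) ≤ q * w := by positivity
  have hbp : Nat.Prime ((n : ℤ) + q * w).toNat := (hn.2 _ hb0 le_rfl).2 ⟨Fin.last 1, by rw [hw]⟩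
  have hbz : ((((n : ℤ) + q * w).toNat : ℕ) : ℤ) = n + q * w := Int.toNat_of_nonneg (by positivity)
  have hstep := nth_step (s := Nat.count Nat.Prime n) (a := n) (Nat.nth_count hnp) hbp (by
    have : (n : ℤ) < ((((n : ℤ) + q * w).toNat : ℕ) : ℤ) := by
      rw [hbz]
      have : (0 : ℤ) < q * w := by positivity
      linarith
    exact_mod_cast this) (by
    intro c hc1 hc2 hcp
    have hc1' : (n : ℤ) < c := by exact_mod_cast hc1
    have hc2' : (c : ℤ) < n + q * w := by
      rw [← hbz]
      exact_mod_cast hc2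
    have hcy := (hn.2 ((c : ℤ) - n) (by linarith) (by linarith)).1 (by
      rw [show (n : ℤ) + ((c : ℤ) - n) = c by ring]
      simpa using hcp)
    obtain ⟨i, hi⟩ := hcy
    rcases hall i with h3 | h3
    · rw [h3] at hi
      simp at hi
      omega
    · rw [h3] at hi
      linarith)
  refine ⟨?_, ?_⟩
  · rw [Nat.nth_count hnp]
    exact hn.1
  · rw [hstep, hbz, Nat.nth_count hnp]
    ring

end Pool.Agent.N790.GS
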